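import Pool.Agent.Run7.h54.HP.Defs

/-!
PIECES CNT and FLD of helper54's definitions (MP_d1604f_al).
-/

namespace Pool.Agent.Run7.h937.ED

open Pool.Agent.Run7.h54.HP Polynomial

theorem countable_poly (H : Type) [Field H] [Countable H] : Countable (Polynomial H) := by
  rw [← Cardinal.mk_le_aleph0_iff]
  refine Polynomial.cardinalMk_le_max.trans ?_
  exact max_le (Cardinal.mk_le_aleph0_iff.mpr inferInstance) le_rfl

theorem t_CNT : P_CNT := by
  intro H _ _
  haveI := countable_poly H
  choose N c h using fun f : chain H => f.2.2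
  refine Function.Injective.countable
    (f := fun f : chain H => ((⟨List.ofFn fun i : Fin (N f) => f.1 i, c f⟩ :
      List (Polynomial H) × H))) ?_
  intro f g hfg
  simp only [Prod.mk.injEq] at hfg
  obtain ⟨h1, h2⟩ := hfg
  have hN : N f = N g := by
    have := congrArg List.length h1
    simpa using this
  apply Subtype.ext
  funext i
  by_cases hi : i < N f
  · have h3 : (List.ofFn fun i : Fin (N f) => f.1 i)[i]? = (List.ofFn fun i : Fin (N g) => g.1 i)[i]? := by
      rw [h1]
    rw [List.getElem?_ofFn, List.getElem?_ofFn, dif_pos hi, dif_pos (hN ▸ hi)] at h3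
    exact Option.some.inj h3
  · rw [h f i (not_lt.mp hi), h g i (hN ▸ not_lt.mp hi), h2]

theorem t_FLD : P_FLD := by
  haveI : Fact (Nat.Prime 2) := ⟨Nat.prime_two⟩
  let K := RatFunc (ZMod 2)
  let H := AlgebraicClosure K
  haveI : CharP K 2 := inferInstance
  haveI : CharP H 2 := charP_of_injective_algebraMap (algebraMap K H).injective 2
  haveI : Countable (Polynomial (ZMod 2)) := countable_poly (ZMod 2)
  haveI : Countable K := by
    have := IsLocalization.mk'_surjective (nonZeroDivisors (Polynomial (ZMod 2))) (S := K)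
    exact Function.Surjective.countable
      (f := fun x : Polynomial (ZMod 2) × nonZeroDivisors (Polynomial (ZMod 2)) =>
        IsLocalization.mk' K x.1 x.2) (fun z => by
          obtain ⟨x, h⟩ := this z
          exact ⟨x, h⟩)
  haveI : Countable H := by
    rw [← Cardinal.mk_le_aleph0_iff]
    refine (Algebra.IsAlgebraic.cardinalMk_le_max K H).trans ?_
    exact max_le (Cardinal.mk_le_aleph0_iff.mpr inferInstance) le_rfl
  refine ⟨2, inferInstance, H, inferInstance, inferInstance, inferInstance, inferInstance,
    (separableClosure K H).toSubfield, ?_, ?_⟩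
  · intro x
    obtain ⟨k, y, hy⟩ := IsPurelyInseparable.pow_mem (separableClosure K H) 2 x
    exact ⟨k, hy ▸ y.2⟩
  · obtain ⟨l, hl⟩ := IsAlgClosed.exists_pow_nat_eq (algebraMap K H RatFunc.X) (n := 2) (by norm_num)
    refine ⟨l, fun hC => ?_⟩
    have h1 : l ∈ perfectClosure K H := by
      rw [mem_perfectClosure_iff_pow_mem 2]
      exact ⟨1, by rw [pow_one, hl]; exact ⟨_, rfl⟩⟩
    have h2 : l ∈ separableClosure K H ⊓ perfectClosure K H := ⟨hC, h1⟩
    rw [separableClosure_inf_perfectClosure, IntermediateField.mem_bot] at h2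
    obtain ⟨r, hr⟩ := h2
    have h3 : r ^ 2 = RatFunc.X := by
      apply (algebraMap K H).injective
      rw [map_pow, hr, hl]
    have hr0 : r ≠ 0 := by
      rintro rfl
      apply RatFunc.X_ne_zero (K := ZMod 2)
      rw [← h3]; ring
    have h4 := congrArg RatFunc.intDegree h3
    rw [pow_two, RatFunc.intDegree_mul hr0 hr0, RatFunc.intDegree_X] at h4
    omega

end Pool.Agent.Run7.h937.ED
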