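import Pool.Agent.Run7.h54.HP.Defs

/-!
Interface for the path part of MP_d1604f_al: end points of chains, the ring `TT`, the two tasks.
-/

namespace Pool.Agent.Run7.h937.ED

open Pool.Agent.Run7.h54.HP Polynomial

variable {H : Type} [Field H]

/-- The value of a chain at the start. -/
noncomputable def e0 (H : Type) [Field H] : chain H →+* H where
  toFun f := (f.1 0).eval 0
  map_one' := by
    show (1 : Polynomial H).eval 0 = 1
    exact eval_one
  map_zero' := by
    show (0 : Polynomial H).eval 0 = 0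
    exact eval_zero
  map_add' f g := by
    show (f.1 0 + g.1 0).eval 0 = _
    rw [eval_add]
  map_mul' f g := by
    show (f.1 0 * g.1 0).eval 0 = _
    rw [eval_mul]

theorem e0_apply (f : chain H) : e0 H f = (f.1 0).eval 0 := rfl

/-- The eventual value of a chain. -/
noncomputable def ev (f : chain H) : H := Classical.choose (Classical.choose_spec f.2.2)

theorem ev_spec (f : chain H) : ∃ N, ∀ i, N ≤ i → f.1 i = C (ev f) :=
  ⟨_, Classical.choose_spec (Classical.choose_spec f.2.2)⟩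

theorem ev_eq (f : chain H) (N : ℕ) (c : H) (h : ∀ i, N ≤ i → f.1 i = C c) : ev f = c := by
  obtain ⟨M, hM⟩ := ev_spec f
  have h1 := hM (max N M) (le_max_right _ _)
  have h2 := h (max N M) (le_max_left _ _)
  exact C_injective (h1.symm.trans h2)

/-- The value of a chain at the end. -/
noncomputable def e1 (H : Type) [Field H] : chain H →+* H where
  toFun := ev
  map_one' := ev_eq _ 0 _ fun i _ => by
    show (1 : Polynomial H) = C 1
    rw [C_1]
  map_zero' := ev_eq _ 0 _ fun i _ => by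
    show (0 : Polynomial H) = C 0
    rw [C_0]
  map_add' f g := by
    obtain ⟨N, hN⟩ := ev_spec f
    obtain ⟨M, hM⟩ := ev_spec g
    refine ev_eq _ (max N M) _ fun i hi => ?_
    show f.1 i + g.1 i = _
    rw [hN i ((le_max_left _ _).trans hi), hM i ((le_max_right _ _).trans hi), C_add]
  map_mul' f g := by
    obtain ⟨N, hN⟩ := ev_spec f
    obtain ⟨M, hM⟩ := ev_spec g
    refine ev_eq _ (max N M) _ fun i hi => ?_
    show f.1 i * g.1 i = _
    rw [hN i ((le_max_left _ _).trans hi), hM i ((le_max_right _ _).trans hi), C_mul]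

theorem e1_spec (f : chain H) : ∃ N, ∀ i, N ≤ i → f.1 i = C (e1 H f) := ev_spec f

theorem e1_eq (f : chain H) (N : ℕ) (c : H) (h : ∀ i, N ≤ i → f.1 i = C c) : e1 H f = c :=
  ev_eq f N c h

/-- The chains with both end points in `K`. -/
noncomputable def TT (K : Subfield H) : Subring (chain H) :=
  K.toSubring.comap (e0 H) ⊓ K.toSubring.comap (e1 H)

theorem mem_TT (K : Subfield H) (f : chain H) : f ∈ TT K ↔ e0 H f ∈ K ∧ e1 H f ∈ K := Iff.rfl

/-- Refinements: endomorphisms of the ring of chains which preserve both end points. -/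
def Ref (ρ : chain H →+* chain H) : Prop :=
  (∀ f, e0 H (ρ f) = e0 H f) ∧ ∀ f, e1 H (ρ f) = e1 H f

/-- PIECE T1 (task 1). -/
def P_T1 : Prop := ∀ (p : ℕ) [Fact p.Prime] (H : Type) [Field H] [CharP H p] [IsAlgClosed H]
  (K : Subfield H), (∀ x : H, ∃ k : ℕ, x ^ p ^ k ∈ K) →
  ∀ a b : chain H, a ∈ TT K → b ∈ TT K → ∃ ρ : chain H →+* chain H, Ref ρ ∧
    ∃ d u v s r : chain H, d ∈ TT K ∧ u ∈ TT K ∧ v ∈ TT K ∧ s ∈ TT K ∧ r ∈ TT K ∧
      ρ a = d * u ∧ ρ b = d * v ∧ s * u + r * v = 1

/-- PIECE T2 (task 2). -/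
def P_T2 : Prop := ∀ (H : Type) [Field H] [IsAlgClosed H] (a b c a' b' c' : chain H),
  a * a' + b * b' + c * c' = 1 → ∃ ρ : chain H →+* chain H, Ref ρ ∧
    ∃ x y z w : chain H, z * (x * ρ a) + w * (x * ρ b + y * ρ c) = 1

/-- The final statement. -/
def P_FIN : Prop := ∃ (p : ℕ) (_ : Fact p.Prime) (R : Type) (_ : CommRing R) (_ : CharP R p),
  IsReduced R ∧ IsHermite R ∧ ¬ IsEDR R ∧ IsEDR (PerfectClosure R p)

end Pool.Agent.Run7.h937.ED
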