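import Pool.Agent.Run7.h925.HP.TaskDefs
import Pool.Agent.Run7.h937.ED.Core

/-!
The end of MP_d1604f_al: from the pieces KAP, FLD, COL, PRF, CNT and the two tasks to the
final statement.
-/

namespace Pool.Agent.Run7.h937.ED

open Pool.Agent.Run7.h54.HP Pool.Agent.Run7.h925.HP Polynomial

/-! ### Algebra -/

theorem her_isHermite (R : Type) [CommRing R] (h : Her R) : IsHermite R := by
  intro A
  obtain ⟨d, u, v, s, r, ha, hb, hs⟩ := h (A 0 0) (A 0 1)
  refine ⟨1, !![s, -v; r, u], fun i => if i = 0 then d else 0, isUnit_one, ?_, ?_, ?_⟩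
  · rw [Matrix.isUnit_iff_isUnit_det, Matrix.det_fin_two_of]
    have : s * u - -v * r = 1 := by linear_combination hs
    rw [this]; exact isUnit_one
  · intro i hi
    have : min 1 2 = 1 := rfl
    omega
  · intro i j
    have hi : i = 0 := Fin.ext (by omega)
    subst hi
    rw [Matrix.one_mul, Matrix.mul_apply, Fin.sum_univ_two, ha, hb]
    fin_cases j
    · simp; linear_combination d * hs
    · simp; ring

theorem rank_one (R : Type) [CommRing R] [IsReduced R] (h : IsEDR R)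
    (E : Matrix (Fin 2) (Fin 2) R) (hE : E.det = 0) :
    ∃ x y : Fin 2 → R, ∀ i j, E i j = x i * y j := by
  obtain ⟨P, Q, d, hP, hQ, hd, hD⟩ := h 2 2 E
  have hdet : (P * E * Q).det = 0 := by
    rw [Matrix.det_mul, Matrix.det_mul, hE]; ring
  rw [Matrix.det_fin_two, hD, hD, hD, hD] at hdet
  simp at hdet
  obtain ⟨c, hc⟩ := hd 0 (by norm_num)
  have h1 : d 1 = 0 := by
    have : d 1 ^ 2 = 0 := by
      have : d 1 = d 0 * c := hc
      calc d 1 ^ 2 = (d 0 * d 1) * c := by rw [pow_two]; nth_rewrite 1 [this]; ring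
        _ = 0 := by rw [hdet, zero_mul]
    exact pow_eq_zero_iff (two_ne_zero) |>.mp this
  obtain ⟨P', hP'⟩ := hP.exists_left_inv
  obtain ⟨Q', hQ'⟩ := hQ.exists_right_inv
  have hEE : E = P' * (P * E * Q) * Q' := by
    calc E = (P' * P) * E * (Q * Q') := by rw [hP', hQ', Matrix.one_mul, Matrix.mul_one]
      _ = _ := by simp only [Matrix.mul_assoc]
  refine ⟨fun i => P' i 0 * d 0, fun j => Q' 0 j, fun i j => ?_⟩
  have h2 : E i j = (P' * (P * E * Q) * Q') i j := by rw [← hEE]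
  rw [h2, Matrix.mul_apply, Fin.sum_univ_two, Matrix.mul_apply, Matrix.mul_apply,
    Fin.sum_univ_two, Fin.sum_univ_two, hD, hD, hD, hD]
  simp [h1]

/-! ### Bridges to the definitions of the path part -/

variable {H : Type} [Field H]

theorem E1_iff (f : chain H) (c : H) : E1 f c ↔ e1 H f = c := by
  constructor
  · rintro ⟨N, hN⟩
    exact e1_eq f N c hN
  · rintro rfl
    exact e1_spec f

theorem refines_ref {ρ : chain H →+* chain H} (h : Refines ρ) : Ref ρ :=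
  ⟨fun f => h.1 f, fun f => (E1_iff _ _).mp (h.2 f _ ((E1_iff _ _).mpr rfl))⟩

theorem inC_iff (K : Subfield H) (f : chain H) : InC K f ↔ f ∈ TT K := by
  rw [mem_TT]
  constructor
  · rintro ⟨h1, c, hc, h2⟩
    rw [E1_iff] at h2
    exact ⟨h1, h2 ▸ hc⟩
  · rintro ⟨h1, h2⟩
    exact ⟨h1, _, h2, (E1_iff _ _).mpr rfl⟩

/-! ### The ring of chains -/

theorem chain_ext {f g : chain H} (h : ∀ i, f.1 i = g.1 i) : f = g :=
  Subtype.ext (funext h)

instance chain_reduced : IsReduced (chain H) :=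
  isReduced_of_injective (chain H).subtype Subtype.val_injective

theorem chain_nontriv : (1 : chain H) ≠ 0 := by
  intro h
  have h1 := congrArg (e0 H) h
  rw [map_one, map_zero] at h1
  exact one_ne_zero h1

theorem unit_ends (u v : chain H) (h : u * v = 1) : e0 H u = e1 H u := by
  have h1 : ∀ i, ∃ c, u.1 i = C c := by
    intro i
    have h2 : u.1 i * v.1 i = 1 := congrFun (congrArg Subtype.val h) i
    have h3 : IsUnit (u.1 i) := IsUnit.of_mul_eq_one _ h2
    obtain ⟨c, _, hc⟩ := Polynomial.isUnit_iff.mp h3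
    exact ⟨c, hc.symm⟩
  choose c hc using h1
  have h2 : ∀ i, c (i + 1) = c i := by
    intro i
    have := u.2.1 i
    rw [hc, hc, eval_C, eval_C] at this
    exact this.symm
  have h3 : ∀ i, c i = c 0 := by
    intro i
    induction i with
    | zero => rfl
    | succ i ih => rw [h2, ih]
  have h4 : e1 H u = c 0 := e1_eq u 0 _ fun i _ => by rw [hc, h3]
  rw [h4, e0_apply, hc, eval_C]

/-! ### The initial task -/

/-- the chain which is the polynomial `F` first and then the constant `F(1)` -/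
noncomputable def one_step (F : Polynomial H) : chain H :=
  ⟨fun i => if i = 0 then F else C (F.eval 1), by
    refine ⟨fun i => ?_, 1, F.eval 1, fun i hi => ?_⟩
    · rcases i with _ | i
      · simp
      · simp
    · simp [show i ≠ 0 by omega]⟩

theorem one_step_zero (F : Polynomial H) : (one_step F).1 0 = F := rfl

theorem one_step_succ (F : Polynomial H) (i : ℕ) : (one_step F).1 (i + 1) = C (F.eval 1) := rfl

theorem e0_one_step (F : Polynomial H) : e0 H (one_step F) = F.eval 0 := rfl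

theorem e1_one_step (F : Polynomial H) : e1 H (one_step F) = F.eval 1 :=
  e1_eq _ 1 _ fun i hi => by
    obtain ⟨j, rfl⟩ : ∃ j, i = j + 1 := ⟨i - 1, by omega⟩
    exact one_step_succ F j

/-- the two vectors -/
theorem start (l : H) (hl : l ≠ 0) : ∃ w w' : Fin 2 → chain H,
    w 0 * w' 0 + w 1 * w' 1 = 1 ∧
    e0 H (w 0) = 1 ∧ e1 H (w 0) = l ∧ e0 H (w 1) = 0 ∧ e1 H (w 1) = 0 ∧
    e0 H (w' 0) = 1 ∧ e1 H (w' 0) = l⁻¹ ∧ e0 H (w' 1) = 0 ∧ e1 H (w' 1) = 0 := by
  obtain ⟨F, hF⟩ : ∃ F : Polynomial H, F = 1 + C (l - 1) * X := ⟨_, rfl⟩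
  obtain ⟨G, hG⟩ : ∃ G : Polynomial H, G = X * (1 - X) := ⟨_, rfl⟩
  have c1 : IsCoprime F X := ⟨1, -C (l - 1), by rw [hF]; ring⟩
  have hll : (C l⁻¹ : Polynomial H) * C l = 1 := by
    rw [← C_mul, inv_mul_cancel₀ hl, C_1]
  have c2 : IsCoprime F (1 - X) := ⟨C l⁻¹, C l⁻¹ * C (l - 1), by
    rw [hF, C_sub, C_1]
    linear_combination hll⟩
  have c3 : IsCoprime F (G * G) := by
    rw [hG]
    exact (c1.mul_right c2).mul_right (c1.mul_right c2)
  obtain ⟨F', K, hFK⟩ := c3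
  have f0 : F.eval 0 = 1 := by rw [hF]; simp
  have f1 : F.eval 1 = l := by rw [hF]; simp
  have g0 : G.eval 0 = 0 := by rw [hG]; simp
  have g1 : G.eval 1 = 0 := by rw [hG]; simp
  have f'0 : F'.eval 0 = 1 := by
    have := congrArg (eval 0) hFK
    simp only [eval_add, eval_mul, f0, g0, eval_one, mul_zero, mul_one, add_zero] at this
    exact this
  have f'1 : F'.eval 1 = l⁻¹ := by
    have := congrArg (eval 1) hFK
    simp only [eval_add, eval_mul, f1, g1, eval_one, mul_zero, add_zero] at this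
    exact eq_inv_of_mul_eq_one_left this
  refine ⟨![one_step F, one_step G], ![one_step F', one_step (K * G)], ?_, ?_, ?_, ?_, ?_, ?_,
    ?_, ?_, ?_⟩
  · apply chain_ext
    intro i
    show (one_step F).1 i * (one_step F').1 i + (one_step G).1 i * (one_step (K * G)).1 i = 1
    rcases i with _ | i
    · rw [one_step_zero, one_step_zero, one_step_zero, one_step_zero, ← hFK]; ring
    · rw [one_step_succ, one_step_succ, one_step_succ, one_step_succ, f1, f'1, g1]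
      rw [← C_mul, ← C_mul, ← C_add]
      simp [hl]
  · exact f0
  · exact (e1_one_step F).trans f1
  · exact g0
  · exact (e1_one_step G).trans g1
  · exact f'0
  · exact (e1_one_step F').trans f'1
  · show (K * G).eval 0 = 0
    rw [eval_mul, g0, mul_zero]
  · refine (e1_one_step (K * G)).trans ?_
    rw [eval_mul, g1, mul_zero]

/-- The obstruction. -/
theorem obstruction (K : Subfield H) (l : H) (hl : l ∉ K) (w w' : Fin 2 → chain H)
    (hw : w 0 * w' 0 + w 1 * w' 1 = 1) (h1 : e0 H (w 0) = 1) (h2 : e1 H (w 0) = l)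
    (x y : Fin 2 → chain H) (hx : ∀ i, x i ∈ TT K)
    (hxy : ∀ i j, w i * w' j = x i * y j) : False := by
  have hl0 : l ≠ 0 := fun h => hl (h ▸ K.zero_mem)
  have hu : (w' 0 * x 0 + w' 1 * x 1) * (w 0 * y 0 + w 1 * y 1) = 1 := by
    have e00 := hxy 0 0
    have e01 := hxy 0 1
    have e10 := hxy 1 0
    have e11 := hxy 1 1
    have t : x 0 * y 0 + x 1 * y 1 = 1 := by rw [← e00, ← e11, hw]
    calc (w' 0 * x 0 + w' 1 * x 1) * (w 0 * y 0 + w 1 * y 1)
        = (w 0 * w' 0) * (x 0 * y 0) + (w 1 * w' 0) * (x 0 * y 1) + (w 0 * w' 1) * (x 1 * y 0)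
          + (w 1 * w' 1) * (x 1 * y 1) := by ring
      _ = (x 0 * y 0 + x 1 * y 1) ^ 2 := by rw [e00, e10, e01, e11]; ring
      _ = 1 := by rw [t, one_pow]
  have hx0 : x 0 = (w' 0 * x 0 + w' 1 * x 1) * w 0 := by
    have e00 := hxy 0 0
    have e01 := hxy 0 1
    have e11 := hxy 1 1
    have t : x 0 * y 0 + x 1 * y 1 = 1 := by rw [← e00, ← e11, hw]
    calc x 0 = x 0 * (x 0 * y 0 + x 1 * y 1) := by rw [t, mul_one]
      _ = x 0 * (x 0 * y 0) + x 1 * (x 0 * y 1) := by ring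
      _ = x 0 * (w 0 * w' 0) + x 1 * (w 0 * w' 1) := by rw [e00, e01]
      _ = _ := by ring
  obtain ⟨η, hη⟩ : ∃ η, η = w' 0 * x 0 + w' 1 * x 1 := ⟨_, rfl⟩
  rw [← hη] at hu hx0
  have hends := unit_ends _ _ hu
  have a0 : e0 H (x 0) = e0 H η := by rw [hx0, map_mul, h1, mul_one]
  have a1 : e1 H (x 0) = e0 H η * l := by rw [hx0, map_mul, h2, hends]
  have b0 : e0 H η ∈ K := a0 ▸ ((mem_TT K _).mp (hx 0)).1
  have b1 : e0 H η * l ∈ K := a1 ▸ ((mem_TT K _).mp (hx 0)).2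
  have b2 : e0 H η ≠ 0 := by
    intro h
    have := congrArg (e0 H) hu
    rw [map_mul, h, zero_mul, map_one] at this
    exact zero_ne_one this
  apply hl
  have : l = (e0 H η)⁻¹ * (e0 H η * l) := by rw [← mul_assoc, inv_mul_cancel₀ b2, one_mul]
  rw [this]
  exact K.mul_mem (K.inv_mem b0) b1

/-! ### The colimit is not an elementary divisor ring -/

section colim

variable {T R : Type} [CommRing T] [CommRing R] {M : Set (T →+* T)}
  {φ : ℕ → (T →+* R)} {ψ : ℕ → ℕ → (T →+* T)}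

theorem lift_fin (h1 : ∀ k l, k ≤ l → ψ k l ∈ M ∧ ∀ x, φ l (ψ k l x) = φ k x)
    (h2 : ∀ r : R, ∃ k x, φ k x = r) (x : Fin 2 → R) :
    ∃ (k : ℕ) (X : Fin 2 → T), ∀ i, φ k (X i) = x i := by
  choose k X hX using fun i => h2 (x i)
  refine ⟨max (k 0) (k 1), fun i => ψ (k i) (max (k 0) (k 1)) (X i), fun i => ?_⟩
  have : k i ≤ max (k 0) (k 1) := by
    fin_cases i
    · exact le_max_left _ _
    · exact le_max_right _ _
  rw [(h1 _ _ this).2, hX]

theorem kill_fin (hid : RingHom.id T ∈ M) (hcomp : ∀ f ∈ M, ∀ g ∈ M, f.comp g ∈ M)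
    (h1 : ∀ k l, k ≤ l → ψ k l ∈ M ∧ ∀ x, φ l (ψ k l x) = φ k x)
    (h3 : ∀ k x, φ k x = 0 → ∃ l, k ≤ l ∧ ψ k l x = 0) (k : ℕ) :
    ∀ L : List T, (∀ z ∈ L, φ k z = 0) → ∃ (l : ℕ) (f : T →+* T), f ∈ M ∧
      (∀ x, φ l (f x) = φ k x) ∧ ∀ z ∈ L, f z = 0
  | [], _ => ⟨k, RingHom.id T, hid, fun _ => rfl, fun _ h => absurd h (List.not_mem_nil)⟩
  | a :: L, h => by
    obtain ⟨l, f, hf, hφ, hL⟩ := kill_fin hid hcomp h1 h3 k L fun z hz => h z (List.mem_cons_of_mem _ hz)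
    have ha : φ l (f a) = 0 := by rw [hφ, h a List.mem_cons_self]
    obtain ⟨m, hlm, hm⟩ := h3 l (f a) ha
    refine ⟨m, (ψ l m).comp f, hcomp _ (h1 l m hlm).1 _ hf, fun x => ?_, fun z hz => ?_⟩
    · rw [RingHom.comp_apply, (h1 l m hlm).2, hφ]
    · rcases List.mem_cons.mp hz with rfl | hz
      · exact hm
      · rw [RingHom.comp_apply, hL z hz, map_zero]

end colim

theorem notEDR (K : Subfield H) (l : H) (hl : l ∉ K) (T : Subring (chain H))
    (hT : ∀ f, f ∈ T ↔ InC K f) (M : Set (T →+* T)) (hid : RingHom.id T ∈ M)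
    (hcomp : ∀ f ∈ M, ∀ g ∈ M, f.comp g ∈ M)
    (hM : ∀ g ∈ M, ∃ ρ : chain H →+* chain H, Refines ρ ∧ ∀ x : T, ((g x : T) : chain H) = ρ x)
    (R : Type) [CommRing R] [IsReduced R] (φ : ℕ → (T →+* R)) (ψ : ℕ → ℕ → (T →+* T))
    (h1 : ∀ k l, k ≤ l → ψ k l ∈ M ∧ ∀ x, φ l (ψ k l x) = φ k x)
    (h2 : ∀ r : R, ∃ k x, φ k x = r)
    (h3 : ∀ k x, φ k x = 0 → ∃ l, k ≤ l ∧ ψ k l x = 0) : ¬ IsEDR R := by
  intro hR
  have hl0 : l ≠ 0 := fun h => hl (h ▸ K.zero_mem)
  obtain ⟨w, w', hw, a1, a2, a3, a4, b1, b2, b3, b4⟩ := start l hl0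
  have hE : ∀ i j, w i * w' j ∈ T := by
    intro i j
    rw [hT, inC_iff, mem_TT, map_mul, map_mul]
    fin_cases i <;> fin_cases j
    · refine ⟨?_, ?_⟩
      · show e0 H (w 0) * e0 H (w' 0) ∈ K
        rw [a1, b1, one_mul]; exact K.one_mem
      · show e1 H (w 0) * e1 H (w' 0) ∈ K
        rw [a2, b2, mul_inv_cancel₀ hl0]; exact K.one_mem
    · refine ⟨?_, ?_⟩
      · show e0 H (w 0) * e0 H (w' 1) ∈ K
        rw [b3, mul_zero]; exact K.zero_mem
      · show e1 H (w 0) * e1 H (w' 1) ∈ K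
        rw [b4, mul_zero]; exact K.zero_mem
    · refine ⟨?_, ?_⟩
      · show e0 H (w 1) * e0 H (w' 0) ∈ K
        rw [a3, zero_mul]; exact K.zero_mem
      · show e1 H (w 1) * e1 H (w' 0) ∈ K
        rw [a4, zero_mul]; exact K.zero_mem
    · refine ⟨?_, ?_⟩
      · show e0 H (w 1) * e0 H (w' 1) ∈ K
        rw [a3, zero_mul]; exact K.zero_mem
      · show e1 H (w 1) * e1 H (w' 1) ∈ K
        rw [a4, zero_mul]; exact K.zero_mem
  obtain ⟨E, hEE⟩ : ∃ E : Fin 2 → Fin 2 → T, ∀ i j, ((E i j : T) : chain H) = w i * w' j :=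
    ⟨fun i j => ⟨w i * w' j, hE i j⟩, fun i j => rfl⟩
  have hdet0 : E 0 0 * E 1 1 - E 0 1 * E 1 0 = 0 := by
    apply Subtype.ext
    show ((E 0 0 : T) : chain H) * (E 1 1 : T) - ((E 0 1 : T) : chain H) * (E 1 0 : T) = 0
    rw [hEE, hEE, hEE, hEE]; ring
  obtain ⟨x, y, hxy⟩ := rank_one R hR (Matrix.of fun i j => φ 0 (E i j)) (by
    rw [Matrix.det_fin_two]
    simp only [Matrix.of_apply]
    rw [← map_mul, ← map_mul, ← map_sub, hdet0, map_zero])
  obtain ⟨k1, X, hX⟩ := lift_fin h1 h2 x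
  obtain ⟨k2, Y, hY⟩ := lift_fin h1 h2 y
  have m1 : k1 ≤ max k1 k2 := le_max_left _ _
  have m2 : k2 ≤ max k1 k2 := le_max_right _ _
  obtain ⟨k, hk⟩ : ∃ k, k = max k1 k2 := ⟨_, rfl⟩
  rw [← hk] at m1 m2
  obtain ⟨l', f, hf, hφ, hL⟩ := kill_fin hid hcomp h1 h3 k
    [ψ 0 k (E 0 0) - ψ k1 k (X 0) * ψ k2 k (Y 0), ψ 0 k (E 0 1) - ψ k1 k (X 0) * ψ k2 k (Y 1),
     ψ 0 k (E 1 0) - ψ k1 k (X 1) * ψ k2 k (Y 0), ψ 0 k (E 1 1) - ψ k1 k (X 1) * ψ k2 k (Y 1)] (by
    have key : ∀ i j, φ k (ψ 0 k (E i j) - ψ k1 k (X i) * ψ k2 k (Y j)) = 0 := by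
      intro i j
      rw [map_sub, map_mul, (h1 0 k (Nat.zero_le _)).2, (h1 k1 k m1).2, (h1 k2 k m2).2, hX, hY,
        ← hxy]
      simp
    intro z hz
    simp only [List.mem_cons, List.not_mem_nil, or_false] at hz
    rcases hz with rfl | rfl | rfl | rfl
    · exact key 0 0
    · exact key 0 1
    · exact key 1 0
    · exact key 1 1)
  have hg : f.comp (ψ 0 k) ∈ M := hcomp _ hf _ (h1 0 k (Nat.zero_le _)).1
  obtain ⟨ρ, hρ, hgρ⟩ := hM _ hg
  have hρ' := refines_ref hρ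
  refine obstruction K l hl (fun i => ρ (w i)) (fun i => ρ (w' i)) ?_ ?_ ?_
    (fun i => ((f (ψ k1 k (X i)) : T) : chain H)) (fun j => ((f (ψ k2 k (Y j)) : T) : chain H))
    ?_ ?_
  · show ρ (w 0) * ρ (w' 0) + ρ (w 1) * ρ (w' 1) = 1
    rw [← map_mul, ← map_mul, ← map_add, hw, map_one]
  · exact (hρ'.1 _).trans a1
  · exact (hρ'.2 _).trans a2
  · intro i
    exact (inC_iff K _).mp ((hT _).mp (f (ψ k1 k (X i))).2)
  · have key : ∀ i j, f (ψ 0 k (E i j) - ψ k1 k (X i) * ψ k2 k (Y j)) = 0 →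
        ρ (w i) * ρ (w' j) = ((f (ψ k1 k (X i)) : T) : chain H) * ((f (ψ k2 k (Y j)) : T) : chain H) := by
      intro i j h
      rw [map_sub, map_mul, sub_eq_zero] at h
      rw [← map_mul, ← hEE, ← hgρ (E i j)]
      exact congrArg Subtype.val h
    intro i j
    apply key
    apply hL
    fin_cases i <;> fin_cases j <;> simp

end Pool.Agent.Run7.h937.ED
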