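import Mathlib

/-!
Kaplansky's reduction: a Hermite ring with the triple condition is an elementary divisor ring.
-/

open Matrix

namespace Pool.Agent.Run7.h937.ED

variable {R : Type*} [CommRing R]

/-- The Hermite property, elementwise. -/
def HermE (R : Type*) [CommRing R] : Prop :=
  ∀ a b : R, ∃ d u v s r : R, a = d * u ∧ b = d * v ∧ s * u + r * v = 1

/-- The triple condition. -/
def TripE (R : Type*) [CommRing R] : Prop :=
  ∀ a b c : R, (∃ α β γ : R, α * a + β * b + γ * c = 1) →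
    ∃ x y z w : R, z * (x * a) + w * (x * b + y * c) = 1

theorem vec (hH : HermE R) : ∀ (n : ℕ) (v : Fin (n + 1) → R),
    ∃ (d : R) (u w : Fin (n + 1) → R), (∀ i, v i = d * u i) ∧ u ⬝ᵥ w = 1
  | 0, v => ⟨v 0, fun _ => 1, fun _ => 1, by
      intro i
      have : i = 0 := Fin.ext (by omega)
      subst this; simp, by simp [dotProduct]⟩
  | n + 1, v => by
    obtain ⟨d', u', w', h1, h2⟩ := vec hH n (fun i => v i.succ)
    obtain ⟨d, α, β, s, r, ha, hb, hs⟩ := hH (v 0) d'
    refine ⟨d, Fin.cons α (fun i => β * u' i), Fin.cons s (fun i => r * w' i), ?_, ?_⟩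
    · intro i
      refine Fin.cases ?_ (fun j => ?_) i
      · simpa using ha
      · have := h1 j
        simp only [Fin.cons_succ]
        rw [this, hb]; ring
    · simp only [dotProduct] at h2 ⊢
      rw [Fin.sum_univ_succ]
      simp only [Fin.cons_zero, Fin.cons_succ]
      have : ∑ i, β * u' i * (r * w' i) = β * r * ∑ i, u' i * w' i := by
        rw [Finset.mul_sum]; exact Finset.sum_congr rfl fun i _ => by ring
      rw [this, h2]
      linear_combination hs

/-- `1 ⊕ P`. -/
def ex {m n : ℕ} (a : R) (P : Matrix (Fin m) (Fin n) R) : Matrix (Fin (m + 1)) (Fin (n + 1)) R :=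
  Matrix.of (Fin.cons (Fin.cons a (fun _ => 0)) (fun i => Fin.cons 0 (P i)))

@[simp] theorem ex_00 {m n : ℕ} (a : R) (P : Matrix (Fin m) (Fin n) R) : ex a P 0 0 = a := rfl
@[simp] theorem ex_0s {m n : ℕ} (a : R) (P : Matrix (Fin m) (Fin n) R) (j : Fin n) :
    ex a P 0 j.succ = 0 := rfl
@[simp] theorem ex_s0 {m n : ℕ} (a : R) (P : Matrix (Fin m) (Fin n) R) (i : Fin m) :
    ex a P i.succ 0 = 0 := rfl
@[simp] theorem ex_ss {m n : ℕ} (a : R) (P : Matrix (Fin m) (Fin n) R) (i : Fin m) (j : Fin n) :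
    ex a P i.succ j.succ = P i j := rfl

theorem ex_mul {l m n : ℕ} (a b : R) (P : Matrix (Fin l) (Fin m) R) (Q : Matrix (Fin m) (Fin n) R) :
    ex a P * ex b Q = ex (a * b) (P * Q) := by
  ext i j
  refine Fin.cases ?_ (fun i => ?_) i <;> refine Fin.cases ?_ (fun j => ?_) j <;>
    simp [Matrix.mul_apply, Fin.sum_univ_succ]

theorem ex_one {n : ℕ} : ex (1 : R) (1 : Matrix (Fin n) (Fin n) R) = 1 := by
  ext i j
  refine Fin.cases ?_ (fun i => ?_) i <;> refine Fin.cases ?_ (fun j => ?_) j <;>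
    simp [Matrix.one_apply, Fin.succ_ne_zero, (Fin.succ_ne_zero _).symm]

/-- the two by two block in the upper left corner -/
def blk (n : ℕ) (a b c d : R) : Matrix (Fin (n + 2)) (Fin (n + 2)) R :=
  Matrix.of (Fin.cons (Fin.cons a (Fin.cons b (fun _ => 0)))
    (Fin.cons (Fin.cons c (Fin.cons d (fun _ => 0)))
      (fun i => Fin.cons 0 (Fin.cons 0 ((1 : Matrix (Fin n) (Fin n) R) i)))))

theorem blk_inv (n : ℕ) (a b c d : R) (h : a * d - b * c = 1) :
    blk n a b c d * blk n d (-b) (-c) a = 1 := by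
  ext i j
  refine Fin.cases ?_ (fun i => ?_) i
  · refine Fin.cases ?_ (fun j => ?_) j
    · simp [Matrix.mul_apply, Fin.sum_univ_succ, blk]
      linear_combination h
    · refine Fin.cases ?_ (fun j => ?_) j
      · simp [Matrix.mul_apply, Fin.sum_univ_succ, blk, Matrix.one_apply, Fin.ext_iff]
        ring
      · simp [Matrix.mul_apply, Fin.sum_univ_succ, blk, Matrix.one_apply, Fin.ext_iff]
  · refine Fin.cases ?_ (fun i => ?_) i
    · refine Fin.cases ?_ (fun j => ?_) j
      · simp [Matrix.mul_apply, Fin.sum_univ_succ, blk, Matrix.one_apply, Fin.ext_iff]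
        ring
      · refine Fin.cases ?_ (fun j => ?_) j
        · simp [Matrix.mul_apply, Fin.sum_univ_succ, blk, Matrix.one_apply, Fin.ext_iff]
          linear_combination h
        · simp [Matrix.mul_apply, Fin.sum_univ_succ, blk, Matrix.one_apply, Fin.ext_iff]
    · refine Fin.cases ?_ (fun j => ?_) j
      · simp [Matrix.mul_apply, Fin.sum_univ_succ, blk, Matrix.one_apply, Fin.ext_iff]
      · refine Fin.cases ?_ (fun j => ?_) j
        · simp [Matrix.mul_apply, Fin.sum_univ_succ, blk, Matrix.one_apply, Fin.ext_iff]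
        · simp [Matrix.mul_apply, Fin.sum_univ_succ, blk, Matrix.one_apply]

/-- weak completion of a unimodular row -/
theorem compl0 (hH : HermE R) : ∀ (n : ℕ) (u w : Fin (n + 1) → R), u ⬝ᵥ w = 1 →
    ∃ P P' : Matrix (Fin (n + 1)) (Fin (n + 1)) R, P * P' = 1 ∧ (∀ j, P 0 j = u j)
  | 0, u, w, h => by
    refine ⟨Matrix.of fun _ _ => u 0, Matrix.of fun _ _ => w 0, ?_, ?_⟩
    · ext i j
      have hi : i = 0 := Fin.ext (by omega)
      have hj : j = 0 := Fin.ext (by omega)
      subst hi; subst hj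
      simpa [Matrix.mul_apply, dotProduct] using h
    · intro j
      have hj : j = 0 := Fin.ext (by omega)
      subst hj; rfl
  | n + 1, u, w, h => by
    obtain ⟨d, u', w', h1, h2⟩ := vec hH n (fun i => u i.succ)
    obtain ⟨P, P', h3, h4⟩ := compl0 hH n u' w' h2
    obtain ⟨e, he⟩ : ∃ e : R, e = ∑ i, u' i * w i.succ := ⟨_, rfl⟩
    have h1' : ∀ i : Fin (n + 1), u i.succ = d * u' i := h1
    have h5 : u 0 * w 0 - d * (-e) = 1 := by
      rw [← h]
      simp only [dotProduct]
      rw [Fin.sum_univ_succ (fun i => u i * w i)]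
      have : ∑ i : Fin (n + 1), u i.succ * w i.succ = d * e := by
        rw [he, Finset.mul_sum]
        exact Finset.sum_congr rfl fun i _ => by rw [h1' i]; ring
      rw [this]; ring
    refine ⟨blk n (u 0) d (-e) (w 0) * ex 1 P,
      ex 1 P' * blk n (w 0) (-d) (-(-e)) (u 0), ?_, ?_⟩
    · rw [Matrix.mul_assoc, ← Matrix.mul_assoc (ex 1 P), ex_mul, h3, mul_one, ex_one,
        Matrix.one_mul, blk_inv _ _ _ _ _ h5]
    · intro j
      rw [Matrix.mul_apply, Fin.sum_univ_succ, Fin.sum_univ_succ]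
      have e1 : ∀ i : Fin n, blk n (u 0) d (-e) (w 0) 0 i.succ.succ = 0 :=
        fun i => rfl
      have e2 : blk n (u 0) d (-e) (w 0) 0 (Fin.succ 0) = d := rfl
      have e3 : blk n (u 0) d (-e) (w 0) 0 0 = u 0 := rfl
      simp only [e1, e2, e3, zero_mul, Finset.sum_const_zero, add_zero]
      refine Fin.cases ?_ (fun j => ?_) j
      · rw [ex_00, ex_s0]; ring
      · rw [ex_0s, ex_ss, h4, h1']; ring

/-- completion: first row `u`, first column of the inverse `w` -/
theorem compl (hH : HermE R) (n : ℕ) (u w : Fin (n + 1) → R) (h : u ⬝ᵥ w = 1) :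
    ∃ P P' : Matrix (Fin (n + 1)) (Fin (n + 1)) R, P * P' = 1 ∧ P' * P = 1 ∧
      (∀ j, P 0 j = u j) ∧ (∀ i, P' i 0 = w i) := by
  obtain ⟨P, P', h1, h2⟩ := compl0 hH n u w h
  have h1' : P' * P = 1 := mul_eq_one_comm.mp h1
  have h3 : (P *ᵥ w) 0 = 1 := by
    have : (P *ᵥ w) 0 = u ⬝ᵥ w := by
      simp [Matrix.mulVec, dotProduct, h2]
    rw [this, h]
  set v : Fin (n + 1) → R := fun i => if i = 0 then 0 else (P *ᵥ w) i with hv
  set E : Matrix (Fin (n + 1)) (Fin (n + 1)) R := Matrix.of fun i j => if j = 0 then v i else 0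
    with hE
  have hEE : E * E = 0 := by
    ext i j
    simp only [hE, Matrix.mul_apply, Matrix.of_apply, Matrix.zero_apply]
    rw [Fin.sum_univ_succ]
    simp [hv, Fin.succ_ne_zero]
  have k1 : (1 - E) * (1 + E) = 1 := by
    rw [sub_mul, mul_add, mul_add, hEE]; simp
  have k2 : (1 + E) * (1 - E) = 1 := by
    rw [add_mul, mul_sub, mul_sub, hEE]; simp
  refine ⟨(1 - E) * P, P' * (1 + E), ?_, ?_, ?_, ?_⟩
  · rw [Matrix.mul_assoc, ← Matrix.mul_assoc P, h1, Matrix.one_mul, k1]
  · rw [Matrix.mul_assoc, ← Matrix.mul_assoc (1 + E), k2, Matrix.one_mul, h1']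
  · intro j
    rw [sub_mul, Matrix.one_mul, Matrix.sub_apply, h2]
    have : (E * P) 0 j = 0 := by
      simp [hE, Matrix.mul_apply, hv]
    rw [this, sub_zero]
  · intro i
    have k3 : ∀ k, (1 + E) k 0 = (P *ᵥ w) k := by
      intro k
      by_cases hk : k = 0
      · subst hk; simp [hE, hv, h3]
      · simp [hE, hv, hk, Matrix.one_apply]
    rw [Matrix.mul_apply]
    simp only [k3]
    have : ∑ k, P' i k * (P *ᵥ w) k = (P' *ᵥ (P *ᵥ w)) i := rfl
    rw [this, Matrix.mulVec_mulVec, h1', Matrix.one_mulVec]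

/-- every matrix is `g • A'` with `x A' y = 1` -/
theorem xAy (hH : HermE R) (hT : TripE R) (n : ℕ) :
    ∀ (m : ℕ) (A : Matrix (Fin (m + 1)) (Fin (n + 1)) R),
      ∃ (g : R) (A' : Matrix (Fin (m + 1)) (Fin (n + 1)) R) (x : Fin (m + 1) → R)
        (y : Fin (n + 1) → R), (∀ i j, A i j = g * A' i j) ∧ (x ᵥ* A') ⬝ᵥ y = 1 := by
  rcases n with _ | n
  · intro m A
    obtain ⟨d, u, w, h1, h2⟩ := vec hH m (fun i => A i 0)
    refine ⟨d, Matrix.of fun i _ => u i, w, fun _ => 1, ?_, ?_⟩
    · intro i j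
      have hj : j = 0 := Fin.ext (by omega)
      subst hj
      simpa using h1 i
    · have : ((w ᵥ* (Matrix.of fun i (_ : Fin (0 + 1)) => u i)) ⬝ᵥ fun _ => 1) = w ⬝ᵥ u := by
        simp [Matrix.vecMul, dotProduct]
      rw [this, dotProduct_comm, h2]
  intro m
  induction m with
  | zero =>
    intro A
    obtain ⟨d, u, w, h1, h2⟩ := vec hH (n + 1) (fun j => A 0 j)
    refine ⟨d, Matrix.of fun _ j => u j, fun _ => 1, w, ?_, ?_⟩
    · intro i j
      have hi : i = 0 := Fin.ext (by omega)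
      subst hi
      simpa using h1 j
    · have : (((fun _ => 1) ᵥ* (Matrix.of fun (_ : Fin (0 + 1)) j => u j)) ⬝ᵥ w) = u ⬝ᵥ w := by
        simp [Matrix.vecMul, dotProduct]
      rw [this, h2]
  | succ m ih =>
    intro A
    obtain ⟨d', B', x', y', hB, hxy⟩ := ih (Matrix.of fun i j => A i.succ j)
    have hB' : ∀ i j, A i.succ j = d' * B' i j := hB
    obtain ⟨Q, Q', hQ1, hQ2, hQ3, hQ4⟩ := compl hH (n + 1) (x' ᵥ* B') y' hxy
    obtain ⟨c, hc⟩ : ∃ c : Fin (n + 2) → R, c = (fun j => A 0 j) ᵥ* Q' := ⟨_, rfl⟩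
    have hcQ : c ᵥ* Q = fun j => A 0 j := by
      rw [hc, Matrix.vecMul_vecMul, hQ2, Matrix.vecMul_one]
    obtain ⟨κ, u'', w'', h1, h2⟩ := vec hH n (fun i => c i.succ)
    have h1' : ∀ i : Fin (n + 1), c i.succ = κ * u'' i := h1
    obtain ⟨g, v, v', h3, h4⟩ := vec hH 2 ![d', c 0, κ]
    have hd' : d' = g * v 0 := h3 0
    have hc0 : c 0 = g * v 1 := h3 1
    have hκ : κ = g * v 2 := h3 2
    obtain ⟨q, p, z, w, h5⟩ := hT (v 2) (v 1) (v 0) ⟨v' 2, v' 1, v' 0, by
      rw [← h4]; simp [dotProduct, Fin.sum_univ_succ]; ring⟩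
    -- the new first row
    obtain ⟨e, he⟩ : ∃ e : Fin (n + 2) → R, e = Fin.cons (v 1) (fun i => v 2 * u'' i) := ⟨_, rfl⟩
    have hce : c = g • e := by
      ext j
      refine Fin.cases ?_ (fun j => ?_) j
      · rw [he, Pi.smul_apply, Fin.cons_zero, smul_eq_mul, hc0]
      · rw [he, Pi.smul_apply, Fin.cons_succ, smul_eq_mul, h1', hκ]; ring
    have hrow : (x' ᵥ* B') = Pi.single 0 1 ᵥ* Q := by
      ext j
      rw [Matrix.single_one_vecMul]
      exact (hQ3 j).symm
    refine ⟨g, Matrix.of (Fin.cons (e ᵥ* Q) (fun i => v 0 • B' i)), Fin.cons q (p • x'),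
      Q' *ᵥ (Fin.cons w (z • w'')), ?_, ?_⟩
    · intro i j
      refine Fin.cases ?_ (fun i => ?_) i
      · have : A 0 j = (c ᵥ* Q) j := by rw [hcQ]
        rw [this, hce, Matrix.smul_vecMul]
        simp
      · simp only [Matrix.of_apply, Fin.cons_succ, Pi.smul_apply, smul_eq_mul]
        rw [hB', hd']; ring
    · have k1 : (Fin.cons q (p • x') : Fin (m + 2) → R) ᵥ*
          (Matrix.of (Fin.cons (e ᵥ* Q) (fun i => v 0 • B' i)) :
            Matrix (Fin (m + 2)) (Fin (n + 2)) R) =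
          (q • e + (p * v 0) • Pi.single 0 1) ᵥ* Q := by
        rw [Matrix.add_vecMul, Matrix.smul_vecMul, Matrix.smul_vecMul, ← hrow]
        ext j
        simp only [Matrix.vecMul, dotProduct, Pi.add_apply, Pi.smul_apply, smul_eq_mul]
        rw [Fin.sum_univ_succ]
        simp only [Fin.cons_zero, Fin.cons_succ, Matrix.of_apply, Pi.smul_apply, smul_eq_mul,
          Matrix.vecMul, dotProduct]
        congr 1
        rw [Finset.mul_sum]
        exact Finset.sum_congr rfl fun i _ => by ring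
      rw [k1, ← Matrix.dotProduct_mulVec, Matrix.mulVec_mulVec, hQ1, Matrix.one_mulVec, he]
      simp only [dotProduct] at h2 ⊢
      rw [Fin.sum_univ_succ]
      simp only [Pi.add_apply, Pi.smul_apply, smul_eq_mul, Fin.cons_zero, Fin.cons_succ,
        Pi.single_eq_same, Pi.single_eq_of_ne (Fin.succ_ne_zero _), mul_zero, mul_one, add_zero]
      have : ∑ i, q * (v 2 * u'' i) * (z * w'' i) = q * v 2 * z * ∑ i, u'' i * w'' i := by
        rw [Finset.mul_sum]; exact Finset.sum_congr rfl fun i _ => by ring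
      rw [this, h2]
      linear_combination h5

/-- Kaplansky's theorem. -/
theorem kap (hH : HermE R) (hT : TripE R) :
    ∀ (m n : ℕ) (A : Matrix (Fin m) (Fin n) R),
      ∃ (P : Matrix (Fin m) (Fin m) R) (Q : Matrix (Fin n) (Fin n) R) (d : ℕ → R),
        IsUnit P ∧ IsUnit Q ∧ (∀ i, d i ∣ d (i + 1)) ∧
          ∀ i j, (P * A * Q) i j = if (i : ℕ) = j then d i else 0 := by
  intro m
  induction m with
  | zero =>
    intro n A
    exact ⟨1, 1, fun _ => 0, isUnit_one, isUnit_one, fun _ => dvd_rfl, fun i => i.elim0⟩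
  | succ m ih =>
    intro n A
    rcases n with _ | n
    · exact ⟨1, 1, fun _ => 0, isUnit_one, isUnit_one, fun _ => dvd_rfl, fun i j => j.elim0⟩
    obtain ⟨g, A', x, y, hA, hxy⟩ := xAy hH hT n m A
    have hAg : A = g • A' := by ext i j; simp [hA]
    have hxz : x ⬝ᵥ (A' *ᵥ y) = 1 := by rw [Matrix.dotProduct_mulVec]; exact hxy
    obtain ⟨P, P', hP1, hP2, hP3, hP4⟩ := compl hH m x (A' *ᵥ y) hxz
    obtain ⟨Q, Q', hQ1, hQ2, hQ3, hQ4⟩ := compl hH n (x ᵥ* A') y hxy
    have rP : x = Pi.single 0 1 ᵥ* P := by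
      ext j; rw [Matrix.single_one_vecMul]; exact (hP3 j).symm
    have cQ : y = Q' *ᵥ Pi.single 0 1 := by
      ext j; rw [Matrix.mulVec_single_one]; exact (hQ4 j).symm
    have cP : A' *ᵥ y = P' *ᵥ Pi.single 0 1 := by
      ext j; rw [Matrix.mulVec_single_one]; exact (hP4 j).symm
    have rQ : x ᵥ* A' = Pi.single 0 1 ᵥ* Q := by
      ext j; rw [Matrix.single_one_vecMul]; exact (hQ3 j).symm
    have hcol : (P * A' * Q') *ᵥ Pi.single 0 1 = Pi.single 0 1 := by
      rw [← Matrix.mulVec_mulVec, ← cQ, ← Matrix.mulVec_mulVec, cP, Matrix.mulVec_mulVec, hP1,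
        Matrix.one_mulVec]
    have hrow : Pi.single 0 1 ᵥ* (P * A' * Q') = Pi.single 0 1 := by
      rw [← Matrix.vecMul_vecMul, ← Matrix.vecMul_vecMul, ← rP, rQ, Matrix.vecMul_vecMul, hQ1,
        Matrix.vecMul_one]
    obtain ⟨B, hB⟩ : ∃ B : Matrix (Fin m) (Fin n) R,
        B = Matrix.of fun i j => (P * A' * Q') i.succ j.succ := ⟨_, rfl⟩
    have hM : P * A' * Q' = ex 1 B := by
      ext i j
      refine Fin.cases ?_ (fun i => ?_) i
      · have := congrFun hrow j
        rw [Matrix.single_one_vecMul] at this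
        refine Eq.trans this ?_
        refine Fin.cases ?_ (fun j => ?_) j
        · simp
        · simp [Pi.single_eq_of_ne (Fin.succ_ne_zero _)]
      · refine Fin.cases ?_ (fun j => ?_) j
        · have := congrFun hcol i.succ
          rw [Matrix.mulVec_single_one] at this
          refine Eq.trans this ?_
          simp [Pi.single_eq_of_ne (Fin.succ_ne_zero _)]
        · rw [ex_ss, hB]; rfl
    obtain ⟨P1, Q1, d, hP1', hQ1', hd, hD⟩ := ih n (g • B)
    have isU : ∀ {k : ℕ} {U : Matrix (Fin k) (Fin k) R}, IsUnit U → IsUnit (ex 1 U) := by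
      intro k U hU
      obtain ⟨V, hV⟩ := hU.exists_right_inv
      refine IsUnit.of_mul_eq_one (ex 1 V) ?_
      rw [ex_mul, hV, mul_one, ex_one]
    have uP : IsUnit P := IsUnit.of_mul_eq_one P' hP1
    have uQ' : IsUnit Q' := IsUnit.of_mul_eq_one Q hQ2
    refine ⟨ex 1 P1 * P, Q' * ex 1 Q1,
      fun i => match i with
        | 0 => g
        | i + 1 => if i < min m n then d i else 0, (isU hP1').mul uP, uQ'.mul (isU hQ1'), ?_, ?_⟩
    · intro i
      rcases i with _ | i
      · show g ∣ if 0 < min m n then d 0 else 0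
        split_ifs with h
        · have hm : 0 < m := lt_of_lt_of_le h (min_le_left _ _)
          have hn : 0 < n := lt_of_lt_of_le h (min_le_right _ _)
          have := hD ⟨0, hm⟩ ⟨0, hn⟩
          rw [if_pos rfl] at this
          rw [← this, Matrix.mul_smul, Matrix.smul_mul]
          exact ⟨_, rfl⟩
        · exact dvd_zero _
      · show (if i < min m n then d i else 0) ∣ if i + 1 < min m n then d (i + 1) else 0
        split_ifs with h h'
        · exact hd i
        · exact dvd_zero _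
        · omega
        · exact dvd_zero _
    · have key : ex 1 P1 * P * A * (Q' * ex 1 Q1) = ex g (P1 * (g • B) * Q1) := by
        have h1 : ex 1 P1 * P * A * (Q' * ex 1 Q1) = g • (ex 1 P1 * (P * A' * Q') * ex 1 Q1) := by
          rw [hAg]
          simp only [Matrix.mul_smul, Matrix.smul_mul, Matrix.mul_assoc]
        rw [h1, hM, ex_mul, ex_mul]
        ext i j
        refine Fin.cases ?_ (fun i => ?_) i <;> refine Fin.cases ?_ (fun j => ?_) j <;> simp
      intro i j
      rw [key]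
      refine Fin.cases ?_ (fun i => ?_) i
      · refine Fin.cases ?_ (fun j => ?_) j
        · simp
        · simp
      · refine Fin.cases ?_ (fun j => ?_) j
        · simp
        · rw [ex_ss, hD]
          simp only [Fin.val_succ, Nat.add_right_cancel_iff]
          split_ifs with h h' h'
          · rfl
          · exact absurd (lt_min i.2 (h ▸ j.2)) h'
          · rfl

end Pool.Agent.Run7.h937.ED
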