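import Pool.Agent.Run7.h54.HP.Defs
import Pool.Agent.Run7.h937.ED.Kap

/-!
PIECE KAP of helper54's definitions: Kaplansky's theorem.
-/

namespace Pool.Agent.Run7.h937.ED

open Pool.Agent.Run7.h54.HP

theorem t_KAP : P_KAP := by
  intro R _ hH hT m n A
  obtain ⟨P, Q, d, h1, h2, h3, h4⟩ := kap (R := R) hH
    (fun a b c ⟨α, β, γ, h⟩ => hT a b c α β γ (by linear_combination h)) m n A
  exact ⟨P, Q, d, h1, h2, fun i _ => h3 i, h4⟩

end Pool.Agent.Run7.h937.ED
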